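import Pool.Agent.MP_c1891a_nt.G43.Bas

/-! In codimension two there is no very small value. -/

namespace Pool.Agent.MP_c1891a_nt.G43

open Finset Module H43

/-- a point without bounded relations is not on an anomalous coset. -/
theorem excl_and (h2 : SStr) (Λ : Type) [AddCommGroup Λ] [Module.Free ℤ Λ] [Module.Finite ℤ Λ]
    (S : Sys Λ) (hG : S.Good) : ∃ T : Finset Λ, ∀ χ : AddChar Λ ℂ, NoRel T χ →
      ¬ ∃ D : AnD S, ∀ l, D.v l = 0 → D.w l = 0 → χ l = D.η l := by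
  classical
  by_contra c
  push Not at c
  have : Countable Λ := (Module.finBasis ℤ Λ).equivFun.toEquiv.injective.countable
  obtain ⟨e, he⟩ := exists_surjective_nat Λ
  choose χ hN D hD using fun n : ℕ => c ((range (n + 1)).image e)
  obtain ⟨F, _, _, x, L, t, hZ, hT, hr, -, hs⟩ := h2 Λ S D
  have ht := hG F x hZ t hT
  have hL : L ≠ ⊥ := by
    rintro rfl
    rw [finrank_bot] at hr
    omega
  obtain ⟨l, hl, h0⟩ := Submodule.exists_mem_ne_zero_of_ne_bot hL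
  obtain ⟨s, hs0, hs⟩ := hs {l} (fun a ha => by rw [mem_singleton.1 ha]; exact hl)
  obtain ⟨k, hk⟩ := he (s • l)
  obtain ⟨n, hn, hv⟩ := hs k
  obtain ⟨h1, h2, h3⟩ := hv l (mem_singleton_self l)
  refine hN n (s • l) (mem_image.2 ⟨k, mem_range.2 (by omega), hk⟩) (fun e0 => h0 ?_) ?_
  · rw [← natCast_zsmul] at e0
    exact (smul_eq_zero.1 e0).resolve_left (by exact_mod_cast hs0.ne')
  · rw [(χ n).map_nsmul_eq_pow, hD n l h1 h2, h3]

theorem excl_min {α : Type} (A : Finset α) (d : α → ℝ) (hd : ∀ a ∈ A, 0 < d a) (γ : ℝ)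
    (hγ : 0 < γ) : ∃ δ : ℝ, 0 < δ ∧ δ ≤ γ ∧ ∀ a ∈ A, δ ≤ d a := by
  classical
  induction A using Finset.induction_on with
  | empty => exact ⟨γ, hγ, le_rfl, by simp⟩
  | insert a A _ ih =>
    obtain ⟨δ, h1, h2, h3⟩ := ih fun b hb => hd b (mem_insert_of_mem hb)
    refine ⟨min δ (d a), lt_min h1 (hd a (mem_insert_self _ _)), (min_le_left _ _).trans h2,
      fun b hb => ?_⟩
    rcases mem_insert.1 hb with rfl | hb
    · exact min_le_right _ _
    · exact (min_le_left _ _).trans (h3 b hb)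

/-- rank zero. -/
theorem excl_zero (Λ : Type) [AddCommGroup Λ] [Module.Free ℤ Λ] [Module.Finite ℤ Λ] (S : Sys Λ)
    (hI : S.Int) (hG : S.Good) (h0 : finrank ℤ Λ = 0) (χ : AddChar Λ ℂ) : 1 ≤ S.ρ χ := by
  classical
  have : Subsingleton Λ := finrank_zero_iff.1 h0
  have hχ : ∀ l, χ l = 1 := fun l => by rw [Subsingleton.elim l 0, χ.map_zero_eq_one]
  have hZ : ¬ S.Zero χ := fun hZ => by
    have := hG ℂ χ hZ 0 ⟨Fin.elim0, algebraicIndependent_empty_type⟩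
    omega
  obtain ⟨j, hj⟩ := not_forall.1 hZ
  choose! z hz using hI
  have e : S.cs χ j = ((∑ i ∈ S.I with S.κ i = j, z i : ℤ) : ℂ) := by
    unfold Sys.cs
    push_cast
    refine sum_congr (by convert rfl) fun i hi => ?_
    rw [hχ, mul_one, hz i (mem_filter.1 hi).1]
    simp
  refine le_trans ?_ (S.norm_cs_le χ j)
  rw [e] at hj ⊢
  rw [Complex.norm_intCast]
  exact_mod_cast Int.one_le_abs (by exact_mod_cast hj)

theorem excl_ind (h1 : SAnomN) (h2 : SStr) (h3 : SNz) (h4 : SSat) (h5 : SExt) (n : ℕ) :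
    ∀ (Λ : Type) [AddCommGroup Λ] [Module.Free ℤ Λ] [Module.Finite ℤ Λ] (S : Sys Λ),
      finrank ℤ Λ = n → S.Int → S.Good →
      ∃ (δ : ℝ) (T : Finset Λ), 0 < δ ∧ ∀ χ : AddChar Λ ℂ, IsOfFinOrder χ → NoRel T χ →
        Real.exp (-(orderOf χ : ℝ) ^ (1 - δ)) ≤ S.ρ χ := by
  classical
  induction n using Nat.strong_induction_on with
  | _ n ih =>
  intro Λ _ _ _ S hn hI hG
  rcases Nat.eq_zero_or_pos n with rfl | hpos
  · refine ⟨1, ∅, one_pos, fun χ _ _ => le_trans ?_ (excl_zero Λ S hI hG hn χ)⟩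
    exact Real.exp_le_one_iff.2 (neg_nonpos.2 (by positivity))
  obtain ⟨⟨𝒲, hW1, hW2⟩, hW3⟩ := h4 Λ S.ι S.I S.m
  have hW : ∀ W ∈ 𝒲, ∃ (δ : ℝ) (T : Finset Λ), 0 < δ ∧ δ ≤ 1 ∧ (W ≠ ⊤ → ∀ χ : AddChar Λ ℂ,
      IsOfFinOrder χ → NoRel T χ →
        Real.exp (-(orderOf χ : ℝ) ^ (1 - δ)) ≤ (S.ref W.mkQ).ρ χ) := by
    intro W hW
    by_cases ht : W = ⊤
    · exact ⟨1, ∅, one_pos, le_rfl, fun h => absurd ht h⟩
    have hlt := (hW3 W (hW1 W hW)).2.2.2 ht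
    obtain ⟨δ, T, hδ, hT⟩ := ih _ (hn ▸ hlt) W (S.res W) rfl (hI.res W)
      (h5 Λ S W (hW1 W hW) (hG.ref _))
    refine ⟨min δ 1, T.image Subtype.val, lt_min hδ one_pos, min_le_right _ _,
      fun _ χ hχ hN => ?_⟩
    have hd := rs_order W χ
    have hp : 0 < orderOf (rs W χ) := Nat.pos_of_dvd_of_pos hd hχ.orderOf_pos
    rw [← S.ρ_res W (char_norm hχ)]
    refine le_trans (Real.exp_le_exp.2 (neg_le_neg ?_))
      (hT (rs W χ) (orderOf_pos_iff.1 hp) (hN.rs fun l hl => mem_image_of_mem _ hl))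
    calc (orderOf (rs W χ) : ℝ) ^ (1 - δ) ≤ (orderOf (rs W χ) : ℝ) ^ (1 - min δ 1) :=
          Real.rpow_le_rpow_of_exponent_le (by exact_mod_cast hp)
            (by linarith [min_le_left δ 1])
      _ ≤ (orderOf χ : ℝ) ^ (1 - min δ 1) :=
          Real.rpow_le_rpow (by positivity) (by exact_mod_cast Nat.le_of_dvd hχ.orderOf_pos hd)
            (by linarith [min_le_right δ 1])
  choose! d TW hd0 hd1 hTW using hW
  obtain ⟨γ, hγ, hA⟩ := h1 Λ S hI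
  obtain ⟨δ₀, hδ0, hδγ, hδd⟩ := excl_min 𝒲 d hd0 γ hγ
  obtain ⟨M₀, hM⟩ := hA (δ₀ / 2) (by positivity) (by linarith)
  obtain ⟨T₁, hT₁⟩ := h3 Λ S fun F _ _ x hx hT => by
    have := hG F x hx _ hT
    omega
  obtain ⟨T₂, hT₂⟩ := excl_and h2 Λ S hG
  have : Nontrivial Λ := finrank_pos_iff.1 (hn ▸ hpos)
  obtain ⟨l₀, hl₀⟩ := exists_ne (0 : Λ)
  refine ⟨δ₀ / 2 / 2, T₁ ∪ T₂ ∪ {(max M₀ 2).factorial • l₀} ∪ 𝒲.biUnion TW, by positivity,
    fun χ hχ hN => ?_⟩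
  by_contra c
  have hord : max M₀ 2 ≤ orderOf χ := hN.le_order hχ hl₀ (by simp)
  rcases hM χ ((le_max_left _ _).trans hord)
    (hT₁ χ hχ (hN.mono fun l hl => by simp [hl])) (not_le.1 c).le with ⟨u, hu, hs⟩ | hD
  · obtain ⟨W, hW, hle, hcl⟩ := hW2 _ (sat_ker u)
    have ht : W ≠ ⊤ := by
      rintro rfl
      exact hu (LinearMap.ker_eq_top.1 (top_le_iff.1 hle))
    have a1 := hTW W hW ht χ hχ (hN.mono fun l hl =>
      mem_union_right _ (mem_biUnion.2 ⟨W, hW, hl⟩))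
    have a2 : (S.ref W.mkQ).ρ χ ≤ (S.ref u).ρ χ := S.ρ_ref_le _ _ (fun i hi k hk e => by
      rw [Submodule.mkQ_apply, Submodule.mkQ_apply, Submodule.Quotient.eq]
      exact hcl i hi k hk (by rw [LinearMap.mem_ker, map_sub, e, sub_self])) χ
    have a3 := neg_le_neg_iff.1 (Real.exp_le_exp.1 (a1.trans (a2.trans hs)))
    have a4 : (1 : ℝ) < orderOf χ := by exact_mod_cast (le_max_right _ _).trans hord
    have a5 := hδd W hW
    exact absurd a3 (not_le.2 (Real.rpow_lt_rpow_of_exponent_lt a4 (by linarith)))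
  · exact hT₂ χ (hN.mono fun l hl => by simp [hl]) hD

theorem sExcl (h1 : SAnomN) (h2 : SStr) (h3 : SNz) (h4 : SSat) (h5 : SExt) : SExcl :=
  fun Λ _ _ _ S hI hG => excl_ind h1 h2 h3 h4 h5 _ Λ S rfl hI hG

end Pool.Agent.MP_c1891a_nt.G43
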