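import Pool.Agent.MP_c1891a_nt.G43.Spec
import Pool.Agent.MP_c1891a_nt.H70.Pig
import Pool.Agent.MP_c1891a_nt.H73.Rep

/-
Pigeonhole and two-dimensional subgroups in any dimension.
-/

namespace Pool.Agent.MP_c1891a_nt.G43

open Finset H43

theorem sPigN : SPigN := by
  intro n
  refine ⟨1 / (15 * (n + 1)), (3 * 2 ^ n) ^ (15 * (n + 1)), by positivity, fun N hN e he => ?_⟩
  have hN0 : 0 < N := lt_of_lt_of_le (by positivity) hN
  have hN1 : (0 : ℝ) ≤ N := by positivity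
  obtain ⟨x, hx⟩ : ∃ x : ℝ, x = (N : ℝ) ^ (1 / (15 * (n + 1)) : ℝ) := ⟨_, rfl⟩
  have pw : ∀ m : ℕ, x ^ m = (N : ℝ) ^ (m / (15 * (n + 1)) : ℝ) := fun m => by
    rw [hx, ← Real.rpow_natCast, ← Real.rpow_mul hN1]
    congr 1
    ring
  have eL : x ^ (15 * (n + 1)) = N := by
    rw [pw]; push_cast; rw [div_self (by positivity), Real.rpow_one]
  have eT : (N : ℝ) ^ (1 - 1 / (15 * (n + 1)) : ℝ) = x ^ (15 * n + 14) := by
    rw [pw]; congr 1; push_cast; field_simp; ring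
  have es : (N : ℝ) ^ (1 / 15 : ℝ) = x ^ (n + 1) := by
    rw [pw]; congr 1; push_cast; field_simp
  have x0 : 0 ≤ x := by rw [hx]; positivity
  have x4 : 3 * 2 ^ n ≤ x := by
    refine le_of_pow_le_pow_left₀ (n := 15 * (n + 1)) (by omega) x0 ?_
    rw [eL]
    exact_mod_cast hN
  have x3 : 3 ≤ x := by
    have : (1 : ℝ) ≤ 2 ^ n := one_le_pow₀ one_le_two
    linarith
  have x1 : 0 < x := by linarith
  rw [eT, es]
  have q1 := Nat.le_ceil x
  have q2 := Nat.ceil_lt_add_one x0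
  have q3 : 0 < ⌈x⌉₊ := Nat.ceil_pos.2 x1
  generalize ⌈x⌉₊ = Q at q1 q2 q3
  have n1 := Nat.floor_le (a := 2 * x ^ (14 * n + 13)) (by positivity)
  obtain ⟨S, hS, hc, hd⟩ := pig_box (n := ⌊2 * x ^ (14 * n + 13)⌋₊ + 1) hN0 q3 e (by
    have h1 : (Q : ℝ) ^ n ≤ (2 * x) ^ n := pow_le_pow_left₀ (by positivity) (by linarith) n
    have h2 : (1 : ℝ) ≤ x ^ (14 * n + 13) := one_le_pow₀ (by linarith)
    have h3 : (Q : ℝ) ^ n * (⌊2 * x ^ (14 * n + 13)⌋₊ + 1) ≤ (2 * x) ^ n * (3 * x ^ (14 * n + 13)) :=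
      mul_le_mul h1 (by linarith) (by positivity) (by positivity)
    have h4 : (2 * x) ^ n * (3 * x ^ (14 * n + 13)) < N := by
      have h5 : 3 * 2 ^ n < x ^ 2 := by nlinarith
      have h6 := mul_lt_mul_of_pos_right h5 (pow_pos x1 (15 * n + 13))
      rw [← eL]
      calc _ = 3 * 2 ^ n * x ^ (15 * n + 13) := by ring
        _ < _ := h6
        _ = _ := by ring
    exact_mod_cast h3.trans_lt h4)
  have hT : ∀ k ∈ S, ∀ k' ∈ S, ∀ i, (|pigD N e k k' i| : ℝ) ≤ x ^ (15 * n + 14) :=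
    fun k hk k' hk' i => by
      have h1 : (|pigD N e k k' i| : ℝ) * Q < N := by exact_mod_cast hd k hk k' hk' i
      have h2 : (|pigD N e k k' i| : ℝ) * x ≤ |(pigD N e k k' i : ℝ)| * Q :=
        mul_le_mul_of_nonneg_left q1 (abs_nonneg _)
      refine le_of_mul_le_mul_right ?_ x1
      rw [← eL] at h1
      rw [← pow_succ]
      exact h2.trans h1.le
  by_contra hcon
  rw [not_or] at hcon
  obtain ⟨c1, c2⟩ := hcon
  obtain ⟨k₁, hk₁, k₀, hk₀, hne⟩ := one_lt_card.1 (lt_of_le_of_lt (by omega) hc)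
  have z : ∀ k ∈ S, ∀ k' ∈ S, k ≠ k' → pigD N e k k' ≠ 0 := fun k hk k' hk' h =>
    pig_ne he (mem_range.1 (hS hk)) (mem_range.1 (hS hk')) h
  obtain ⟨i₁, hi₁⟩ := Function.ne_iff.1 (z _ hk₁ _ hk₀ hne)
  obtain ⟨i₀, -, hi₀⟩ := exists_max_image univ (fun i => |pigD N e k₁ k₀ i|) ⟨i₁, mem_univ _⟩
  have p0 : 0 < |pigD N e k₁ k₀ i₀| := (abs_pos.2 hi₁).trans_le (hi₀ i₁ (mem_univ _))
  have := pig_sep S (fun k => pigD N e k k₀ i₀) (T := x ^ (15 * n + 14)) (l := x ^ (n + 1))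
    (by positivity) (fun k hk => hT k hk k₀ hk₀ i₀) fun k hk k' hk' h => by
      have m : ∀ i, |pigD N e k k' i| ≤ |pigD N e k k' i₀| := fun i => by
        have : pigD N e k k' i * pigD N e k₁ k₀ i₀ = pigD N e k k' i₀ * pigD N e k₁ k₀ i := by
          by_contra hm
          exact c2 ⟨_, _, _, _, pig_dvd N e k k', pig_dvd N e k₁ k₀, ⟨i, i₀, hm⟩, fun j =>
            ⟨hT k hk k' hk' j, hT k₁ hk₁ k₀ hk₀ j⟩⟩
        refine le_of_mul_le_mul_right ?_ p0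
        rw [← abs_mul, this, abs_mul]
        exact mul_le_mul_of_nonneg_left (hi₀ i (mem_univ _)) (abs_nonneg _)
      by_contra hs
      refine c1 ⟨_, _, z k hk k' hk' h, pig_dvd N e k k', fun i => ?_⟩
      have h1 : (|pigD N e k k' i| : ℝ) ≤ |(pigD N e k k' i₀ : ℝ)| := by exact_mod_cast m i
      have h2 : (pigD N e k k₀ i₀ : ℝ) - pigD N e k' k₀ i₀ = pigD N e k k' i₀ := by
        unfold pigD
        push_cast
        ring
      rw [h2] at hs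
      exact h1.trans (not_lt.1 hs)
  rw [show 2 * x ^ (15 * n + 14) / x ^ (n + 1) = 2 * x ^ (14 * n + 13) by field_simp; ring] at this
  omega

/-- a primitive basis adapted to the second vector. -/
lemma pigN_basis {n : ℕ} (r₁ r₂ : Fin n → ℤ) (h : ∃ i j, r₁ i * r₂ j ≠ r₁ j * r₂ i) :
    ∃ (v w : Fin n → ℤ) (a₁ a₂ b : ℤ),
      (∀ m s t : ℤ, (∀ i, m ∣ s * v i + t * w i) → m ∣ s ∧ m ∣ t) ∧
      ∀ i, r₁ i = a₁ * v i + a₂ * w i ∧ r₂ i = b * v i := by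
  obtain ⟨i₀, j₀, h⟩ := h
  have ne : (univ : Finset (Fin n)).Nonempty := ⟨i₀, mem_univ _⟩
  obtain ⟨v, hv, v1⟩ := extract_gcd r₂ ne
  obtain ⟨u, hu⟩ := gcd_eq_sum_mul univ v
  rw [v1] at hu
  obtain ⟨w, hw, w1⟩ := extract_gcd (fun i => r₁ i - (∑ j, r₁ j * u j) * v i) ne
  generalize univ.gcd r₂ = b at hv
  generalize univ.gcd (fun i => r₁ i - (∑ j, r₁ j * u j) * v i) = a at hw
  have e1 : ∀ i, r₁ i = (∑ j, r₁ j * u j) * v i + a * w i := fun i => by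
    linear_combination hw i (mem_univ _)
  have a0 : a ≠ 0 := by
    rintro rfl
    apply h
    rw [e1 i₀, e1 j₀, hv i₀ (mem_univ _), hv j₀ (mem_univ _)]
    ring
  have key : ∀ s t : ℤ, ∑ i, (s * v i + t * w i) * u i = s + t * ∑ i, w i * u i := fun s t => by
    simp only [add_mul, mul_assoc, sum_add_distrib, ← mul_sum, ← hu, mul_one]
  have wu : ∑ i, w i * u i = 0 := by
    have := key (∑ j, r₁ j * u j) a
    simp only [← e1] at this
    exact (mul_eq_zero.1 (left_eq_add.1 this)).resolve_left a0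
  refine ⟨v, w, _, a, b, fun m s t hm => ?_, fun i => ⟨e1 i, hv i (mem_univ _)⟩⟩
  have hs : m ∣ s := by
    have := dvd_sum (s := univ) fun i _ => (hm i).mul_right (u i)
    rwa [key, wu, mul_zero, add_zero] at this
  refine ⟨hs, rep_prim (v := w) (fun m' h' => w1 ▸ dvd_gcd fun i _ => h' i) m t fun i => ?_⟩
  exact (dvd_add_right (hs.mul_right _)).1 (hm i)

theorem sRep2N : SRep2N := by
  intro d N e r₁ r₂ κ₁ κ₂ hN ha hb hd
  obtain ⟨v, w, a₁, a₂, b₁, hp, hr⟩ := pigN_basis r₁ r₂ hd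
  obtain ⟨g, g0, ⟨x, y, hx⟩, hg⟩ := rep_ideal
    (fun κ => ∃ x y : ℤ, ∀ i, (N : ℤ) ∣ κ * e i - (x * v i + y * w i))
    N hN ⟨0, 0, fun i => by simp⟩
    (fun a b t ⟨x, y, hx⟩ ⟨x', y', hy⟩ => ⟨x - x' * t, y - y' * t, fun i => by
      have := dvd_sub (hx i) ((hy i).mul_right t)
      exact this.trans (dvd_of_eq (by ring))⟩)
  have gN : g ∣ N := by exact_mod_cast hg N ⟨0, 0, fun i => by simp⟩
  obtain ⟨n, rfl⟩ := gN
  have g1 : (g : ℤ) ≠ 0 := by exact_mod_cast g0.ne'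
  have gd : (g : ℤ) ∣ ((g * n : ℕ) : ℤ) := by simp
  obtain ⟨⟨x, rfl⟩, ⟨y, rfl⟩⟩ := hp g x y fun i => by
    have := dvd_sub (dvd_mul_right (g : ℤ) (e i)) (gd.trans (hx i))
    simpa using this
  have hn : ∀ i, (n : ℤ) ∣ e i - (x * v i + y * w i) := fun i => by
    have := hx i
    rw [Nat.cast_mul, mul_assoc, mul_assoc, ← mul_add, ← mul_sub] at this
    exact (mul_dvd_mul_iff_left g1).1 this
  have key : ∀ a a' κ : ℤ, (∀ i, ((g * n : ℕ) : ℤ) ∣ a * v i + a' * w i - κ * e i) →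
      ∃ t c c' : ℤ, a = g * (t * x + n * c) ∧ a' = g * (t * y + n * c') := fun a a' κ h => by
    obtain ⟨t, rfl⟩ := hg κ ⟨a, a', fun i => by simpa using (h i).neg_right⟩
    obtain ⟨⟨c, hc⟩, ⟨c', hc'⟩⟩ := hp ((g * n : ℕ) : ℤ) (a - t * (g * x)) (a' - t * (g * y))
      fun i => by
        have := dvd_add (h i) ((hx i).mul_left t)
        exact this.trans (dvd_of_eq (by ring))
    push_cast at hc hc'
    exact ⟨t, c, c', by linear_combination hc, by linear_combination hc'⟩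
  obtain ⟨t₁, c₁, c₂, h1, h2⟩ := key a₁ a₂ κ₁ fun i => (hr i).1 ▸ ha i
  obtain ⟨t₂, d₁, d₂, h3, h4⟩ := key b₁ 0 κ₂ fun i => by
    rw [zero_mul, add_zero, ← (hr i).2]; exact hb i
  have h5 : t₂ * y + n * d₂ = 0 := (mul_eq_zero.1 h4.symm).resolve_left g1
  choose k hk using hn
  refine ⟨v, w, k, g, t₁ * x + n * c₁, t₁ * y + n * c₂, t₂ * x + n * d₁, x, y, g0,
    dvd_mul_right _ _, hp, fun i => ⟨?_, ?_⟩, fun i => ?_, ?_, ?_⟩
  · rw [(hr i).1, h1, h2]; ring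
  · rw [(hr i).2, h3]
  · rw [Nat.mul_div_cancel_left n g0]
    linear_combination hk i
  · rw [Nat.mul_div_cancel_left n g0]
    exact ⟨d₁ * y - d₂ * x, by linear_combination x * h5⟩
  · refine ⟨t₁ * y * d₁ + c₂ * t₂ * x + n * c₂ * d₁ - t₁ * x * d₂, ?_⟩
    push_cast
    linear_combination g * t₁ * x * h5

end Pool.Agent.MP_c1891a_nt.G43
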